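import Pool.Agent.H.MP_07d438_ag.D

set_option autoImplicit false

namespace Pool.Agent.Results.MP_07d438_ag.Exact

/-- `d` is the greatest length of an `R/I`-regular sequence contained in `P`. -/
def HasDepth {R : Type} [CommRing R] (P I : Ideal R) (d : ℕ) : Prop :=
  IsGreatest {l : ℕ | ∃ rs : List R, rs.length = l ∧ (∀ a ∈ rs, a ∈ P) ∧
    RingTheory.Sequence.IsRegular (R ⧸ I) rs} d

/-- Some proper nonzero homogeneous ideal `Q` of `k[x_1, …, x_n]` has `depth S/Q^t = f t` for all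
`t ≥ 1`, the depth being the greatest length of a regular sequence inside `(x_1, …, x_n)`. -/
def Realizes (k : Type) [Field k] (n : ℕ) (f : ℕ → ℕ) : Prop :=
  ∃ Q : Ideal (MvPolynomial (Fin n) k),
    (∃ s : Set (MvPolynomial (Fin n) k), (∀ p ∈ s, ∃ d : ℕ, MvPolynomial.IsHomogeneous p d) ∧
      Q = Ideal.span s) ∧ Q ≠ ⊥ ∧ Q ≠ ⊤ ∧ ∀ t, 1 ≤ t →
    HasDepth (Ideal.span (Set.range (MvPolynomial.X : Fin n → MvPolynomial (Fin n) k))) (Q ^ t) (f t)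

theorem result (f : ℕ → ℕ) (hconv : ∃ c N : ℕ, ∀ t, N ≤ t → f t = c) (m : ℕ)
    (hm : IsGreatest {v | ∃ t, 1 ≤ t ∧ f t = v} m) (N : ℕ)
    (hN : ((∀ t, 1 ≤ t → f t = m) ∧ N = m + 1) ∨ ((∃ t, 1 ≤ t ∧ f t ≠ m) ∧ N = m + 2)) :
    IsLeast {n | ∃ (k : Type) (_ : Field k), Realizes k n f} N ∧
      ∀ (k : Type) [Field k], Realizes k N f := by
  have hle : ∀ t, 1 ≤ t → f t ≤ m := fun t ht => hm.2 ⟨t, ht, rfl⟩
  have up : ∀ (k : Type) [Field k], Realizes k N f := by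
    intro k _
    rcases hN with ⟨h1, rfl⟩ | ⟨-, rfl⟩
    · have hh : ∃ s : Set (MvPolynomial (Fin (m + 1)) k),
          (∀ p ∈ s, ∃ d : ℕ, MvPolynomial.IsHomogeneous p d) ∧
          Ideal.span {(MvPolynomial.X 0 : MvPolynomial (Fin (m + 1)) k)} = Ideal.span s :=
        ⟨{MvPolynomial.X 0}, fun p hp => ⟨1, by
          rw [Set.mem_singleton_iff.1 hp]; exact MvPolynomial.isHomogeneous_X k 0⟩, rfl⟩
      have hX : Ideal.span {(MvPolynomial.X 0 : MvPolynomial (Fin (m + 1)) k)} ≤ Nf.mm k (m + 1) :=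
        Ideal.span_mono (by simp)
      have h0 : Ideal.span {(MvPolynomial.X 0 : MvPolynomial (Fin (m + 1)) k)} ≠ ⊥ := by
        simp
      refine ⟨_, hh, h0, fun e => Dep.max_ne_top (top_le_iff.1 (e ▸ hX)), fun t ht => ?_⟩
      have h2 := (Ideal.pow_le_self (by omega : t ≠ 0)).trans hX
      rw [h1 t ht]
      refine Dep.isGreatest_of_dp h2 Dep.max_ne_top ?_ fun h => ?_
      · rw [Ideal.span_singleton_pow]
        exact Nf.dp_principal (pow_ne_zero _ (MvPolynomial.X_ne_zero _))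
      · have := Nf.dp_lt (pow_ne_zero t h0) h2 h
        omega
    · obtain ⟨c, T, hT⟩ := hconv
      obtain ⟨Q, q1, q2, q3⟩ := Nf.main k f m (T + 1) (by omega) hle
        (fun t ht => by rw [hT t (by omega), hT (T + 1) (by omega)])
      have q4 : Q ≠ ⊤ := by
        rintro rfl
        exact (q3 0).2 (Nf.dp_comax (by simp) _)
      refine ⟨Q, q1, q2, q4, fun t ht => ?_⟩
      obtain ⟨t, rfl⟩ : ∃ s, t = s + 1 := ⟨t - 1, by omega⟩
      exact Dep.isGreatest_of_dp ((Ideal.pow_le_self (by omega)).trans (Nf.homog_le q1 q4))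
        Dep.max_ne_top (q3 t).1 (q3 t).2
  refine ⟨⟨⟨ℚ, inferInstance, up ℚ⟩, ?_⟩, up⟩
  rintro n ⟨k, _, Q, q1, q2, q3, q4⟩
  obtain ⟨s, hs, e⟩ := hm.1
  have hQ : ∀ t, 1 ≤ t → Q ^ t ≤ Nf.mm k n := fun t ht =>
    (Ideal.pow_le_self (by omega)).trans (Nf.homog_le q1 q3)
  have d1 : Dep.DP (Nf.mm k n) (MvPolynomial (Fin n) k ⧸ Q ^ s) m := by
    obtain ⟨rs, r1, r2⟩ := (q4 s hs).1
    exact (Nf.exists_reg (hQ s hs) Dep.max_ne_top).2 ⟨rs, by omega, r2⟩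
  have d2 := Nf.dp_lt (pow_ne_zero s q2) (hQ s hs) d1
  rcases hN with ⟨-, rfl⟩ | ⟨⟨t, ht, h1⟩, rfl⟩
  · exact d2
  · by_contra h2
    obtain rfl : n = m + 1 := by omega
    obtain ⟨rs, r1, r2⟩ := (Nf.exists_reg (hQ t ht) Dep.max_ne_top).1 (Nf.dp_all q2 hs d1 t)
    have := (q4 t ht).2 ⟨rs, rfl, r2⟩
    have := hle t ht
    omega

end Pool.Agent.Results.MP_07d438_ag.Exact
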